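import Pool.Agent.Work.MP_af08fa_gt.Defs
import Pool.Agent.Work.MP_af08fa_gt.Main

/-!
MP_af08fa_gt, Q1: positive answer, and explicitly for all transcendental parameters.
-/

namespace Pool.Agent.Results.MP_af08fa_gt.LowerEdge

open Pool.Agent.Work.MP_af08fa_gt

/-- On the lower edge `β = β_α` of the parameter region there are parameters `α` for which `φ, ψ`
are bijections of the barrel, independent, and such that every non-identity element of the group
they generate has only finitely many fixed points; in fact every transcendental `α` in the range
has these properties. -/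
theorem result :
    (∃ α : ℝ, 0 < α ∧ α < √(2 * √3 - 3) ∧ Good α (betaLow α)) ∧
    (∀ α : ℝ, 0 < α → α < √(2 * √3 - 3) → Transcendental ℚ α → Good α (betaLow α)) :=
  ⟨exists_good, fun _ h0 h1 h2 => good_of_transcendental h0 h1 h2⟩

end Pool.Agent.Results.MP_af08fa_gt.LowerEdge
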